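import Pool.Agent.H72.DJ.Main

/-!
# The infinite-volume limit of the conditioned Dobrushin measures for `q = 2`

For `q = 2` and every `p` in `(0,1)`: if for every `L ≥ 1` the measure `φ L` is the weak limit of the
conditioned measures `phiBar L M p 2` as `M → ∞`, then `φ L` converges weakly as `L → ∞`.
-/

set_option autoImplicit false

open MeasureTheory Filter Topology

namespace Pool.Agent.Results.MP_98e456_pr.IsingCase

open Pool.Agent.H72.DJ

theorem result (p : ℝ) (hp0 : 0 < p) (hp1 : p < 1) (φ : ℕ → ProbabilityMeasure Conf)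
    (hφ : ∀ L, 1 ≤ L → ∀ f : C(Conf, ℝ), Tendsto (fun M => ∫ ω, f ω ∂(phiBar L M p 2)) atTop
      (𝓝 (∫ ω, f ω ∂(φ L : Measure Conf)))) :
    ∃ ν : ProbabilityMeasure Conf, Tendsto φ atTop (𝓝 ν) :=
  main p hp0 hp1 φ hφ

end Pool.Agent.Results.MP_98e456_pr.IsingCase
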