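import Pool.Agent.H78.DB.Fin

/-!
# The infinite-volume limit of the conditioned Dobrushin measures for all `q ≥ 1` and large `p`

Let `q ≥ 1` be real and `0 < p < 1` with `q (1-p)/p ≤ 10^(-153)`. Then for every `L` the weak limit `φ_L` of the conditioned
measures `phiBar L M p q` as `M → ∞` exists, and `φ_L` converges weakly as `L → ∞`.
-/

set_option autoImplicit false

open MeasureTheory Filter Topology

namespace Pool.Agent.Results.MP_98e456_pr.LargeP

open Pool.Agent.H72.DJ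

theorem result (p q : ℝ) (hp0 : 0 < p) (hp1 : p < 1) (hq : 1 ≤ q)
    (hpq : (1 - p) / p * q ≤ 1 / 10 ^ 153) :
    (∀ L : ℕ, ∃ φ : ProbabilityMeasure Conf, ∀ f : C(Conf, ℝ),
      Tendsto (fun M => ∫ ω, f ω ∂(phiBar L M p q)) atTop (𝓝 (∫ ω, f ω ∂(φ : Measure Conf)))) ∧
    ∀ φ : ℕ → ProbabilityMeasure Conf,
      (∀ L, 1 ≤ L → ∀ f : C(Conf, ℝ), Tendsto (fun M => ∫ ω, f ω ∂(phiBar L M p q)) atTop
        (𝓝 (∫ ω, f ω ∂(φ L : Measure Conf)))) →
      ∃ ν : ProbabilityMeasure Conf, Tendsto φ atTop (𝓝 ν) :=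
  Pool.Agent.H78.DB.main hp0 hp1 hq hpq

end Pool.Agent.Results.MP_98e456_pr.LargeP
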